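import Pool.Agent.L7h2.ME.Stm

/-!
# Project ME: almost every polynomial
-/

set_option autoImplicit false

namespace Pool.Agent.L7h53.ME

open Finset MeasureTheory Filter Polynomial
open Pool.Agent.L7h2.ME

/-- the leading coefficients -/
noncomputable def LL {k : ℕ} (d : Fin k → ℕ) : (Fin k → ℝ) →ₗ[ℝ] ((i : Fin k) → Fin (d i + 1) → ℝ) where
  toFun α := fun i => Pi.single (Fin.last (d i)) (α i)
  map_add' α β := by
    funext i
    exact Pi.single_add _ _ _
  map_smul' r α := by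
    funext i
    show Pi.single (Fin.last (d i)) (r • α i) = r • Pi.single (Fin.last (d i)) (α i)
    rw [← Pi.single_smul]

theorem pol_add {d : ℕ} (c : Fin (d + 1) → ℝ) (a : ℝ) (x : ℝ) :
    (pol (c + Pi.single (Fin.last d) a)).eval x = a * x ^ d + (pol c).eval x := by
  unfold pol
  rw [eval_finsetSum, eval_finsetSum]
  simp only [eval_mul, eval_C, eval_pow, eval_X, Pi.add_apply, add_mul, sum_add_distrib]
  rw [add_comm]
  congr 1
  rw [Finset.sum_eq_single (Fin.last d)]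
  · simp
  · intro j _ hj
    rw [Pi.single_eq_of_ne hj, zero_mul]
  · intro h
    exact absurd (mem_univ _) h

theorem pol_eval {d : ℕ} (c : Fin (d + 1) → ℝ) (x : ℝ) :
    (pol c).eval x = ∑ j : Fin (d + 1), c j * x ^ (j : ℕ) := by
  unfold pol
  rw [eval_finsetSum]
  simp

theorem pol_deg {d : ℕ} (c : Fin (d + 1) → ℝ) : (pol c).natDegree ≤ d := by
  unfold pol
  refine natDegree_sum_le_of_forall_le _ _ fun j _ => ?_
  refine (natDegree_C_mul_X_pow_le _ _).trans ?_
  omega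

theorem pol_coeff {d : ℕ} (c : Fin (d + 1) → ℝ) : (pol c).coeff d = c (Fin.last d) := by
  unfold pol
  rw [finsetSum_coeff, Finset.sum_eq_single (Fin.last d)]
  · simp
  · intro j _ hj
    rw [coeff_C_mul, coeff_X_pow, if_neg, mul_zero]
    intro h
    exact hj (Fin.ext (by simpa using h.symm))
  · intro h
    exact absurd (mem_univ _) h

theorem meas_card {X ι : Type} [MeasurableSpace X] (s : Finset ι) (Q : ι → X → Prop)
    {inst : ∀ x, DecidablePred fun j => Q j x}
    (h : ∀ j, MeasurableSet {x | Q j x}) : Measurable fun x => ((s.filter fun j => Q j x).card : ℝ) := by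
  classical
  have h1 : (fun x => ((s.filter fun j => Q j x).card : ℝ)) = fun x => ∑ j ∈ s, if Q j x then (1 : ℝ) else 0 := by
    funext x
    rw [card_filter]
    push_cast
    rfl
  rw [h1]
  exact Finset.measurable_sum _ fun j _ => Measurable.ite (h j) measurable_const measurable_const

open Classical in
theorem s_AEP (hF : S_FIN) : S_AEP := by
  intro k d hd
  obtain ⟨κ, hκ, h⟩ := hF k d hd
  refine ⟨κ, hκ, ?_⟩
  set s : Set ((i : Fin k) → Fin (d i + 1) → ℝ) := {c | (∀ i, 0 < c i (Fin.last (d i))) →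
    ∃ᶠ J : ℕ in atTop, κ * J ≤ #((range J).filter (fun j => κ * (2 : ℝ) ^ j / Real.log (2 ^ j) ^ k ≤
      (#((Ioc (2 ^ j) (2 * 2 ^ j)).filter (fun n => ∀ i, IsPr (pr n + 2 * ⌊(pol (c i)).eval (n : ℝ)⌋))) : ℝ)))}
    with hs
  have hev : ∀ (i : Fin k) (n : ℕ), Measurable fun c : ((i : Fin k) → Fin (d i + 1) → ℝ) =>
      (pol (c i)).eval (n : ℝ) := by
    intro i n
    simp only [pol_eval]
    exact Finset.measurable_sum _ fun j _ =>
      (((measurable_pi_apply j).comp (measurable_pi_apply i)).mul_const _)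
  have h1 : ∀ n : ℕ, MeasurableSet {c : ((i : Fin k) → Fin (d i + 1) → ℝ) |
      ∀ i, IsPr (pr n + 2 * ⌊(pol (c i)).eval (n : ℝ)⌋)} := by
    intro n
    have e1 : {c : ((i : Fin k) → Fin (d i + 1) → ℝ) | ∀ i, IsPr (pr n + 2 * ⌊(pol (c i)).eval (n : ℝ)⌋)} =
        ⋂ i, (fun c : ((i : Fin k) → Fin (d i + 1) → ℝ) => ⌊(pol (c i)).eval (n : ℝ)⌋) ⁻¹'
          {m : ℤ | IsPr (pr n + 2 * m)} := by
      ext c
      simp
    rw [e1]
    exact MeasurableSet.iInter fun i => (Int.measurable_floor.comp (hev i n)) (MeasurableSet.of_discrete)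
  have h2 : ∀ j : ℕ, MeasurableSet {c : ((i : Fin k) → Fin (d i + 1) → ℝ) |
      κ * (2 : ℝ) ^ j / Real.log (2 ^ j) ^ k ≤
      (#((Ioc (2 ^ j) (2 * 2 ^ j)).filter (fun n => ∀ i, IsPr (pr n + 2 * ⌊(pol (c i)).eval (n : ℝ)⌋))) : ℝ)} :=
    fun j => measurableSet_le measurable_const (meas_card _
      (fun n (c : ((i : Fin k) → Fin (d i + 1) → ℝ)) => ∀ i, IsPr (pr n + 2 * ⌊(pol (c i)).eval (n : ℝ)⌋)) h1)
  have h3 : ∀ J : ℕ, MeasurableSet {c : ((i : Fin k) → Fin (d i + 1) → ℝ) |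
      κ * J ≤ ((#((range J).filter (fun j => κ * (2 : ℝ) ^ j / Real.log (2 ^ j) ^ k ≤
      (#((Ioc (2 ^ j) (2 * 2 ^ j)).filter (fun n => ∀ i, IsPr (pr n + 2 * ⌊(pol (c i)).eval (n : ℝ)⌋))) : ℝ))) :
        ℕ) : ℝ)} :=
    fun J => measurableSet_le measurable_const (meas_card (range J)
      (fun j (c : ((i : Fin k) → Fin (d i + 1) → ℝ)) => κ * (2 : ℝ) ^ j / Real.log (2 ^ j) ^ k ≤
      (#((Ioc (2 ^ j) (2 * 2 ^ j)).filter (fun n => ∀ i, IsPr (pr n + 2 * ⌊(pol (c i)).eval (n : ℝ)⌋))) : ℝ)) h2)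
  have hsm : MeasurableSet s := by
    have e1 : s = {c | ∀ i, 0 < c i (Fin.last (d i))}ᶜ ∪ ⋂ n : ℕ, ⋃ J ≥ n,
        {c : ((i : Fin k) → Fin (d i + 1) → ℝ) |
          κ * J ≤ ((#((range J).filter (fun j => κ * (2 : ℝ) ^ j / Real.log (2 ^ j) ^ k ≤
          (#((Ioc (2 ^ j) (2 * 2 ^ j)).filter (fun n => ∀ i, IsPr (pr n + 2 * ⌊(pol (c i)).eval (n : ℝ)⌋))) :
            ℝ))) : ℕ) : ℝ)} := by
      ext c
      simp only [hs, frequently_atTop, Set.mem_setOf_eq, Set.mem_union, Set.mem_compl_iff, Set.mem_iInter,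
        Set.mem_iUnion, exists_prop]
      constructor
      · intro h4
        by_cases h5 : ∀ i, 0 < c i (Fin.last (d i))
        · exact Or.inr (h4 h5)
        · exact Or.inl h5
      · rintro (h4 | h4) h5
        · exact absurd h5 h4
        · exact h4
    rw [e1]
    refine MeasurableSet.union (MeasurableSet.compl ?_) ?_
    · have e2 : {c : ((i : Fin k) → Fin (d i + 1) → ℝ) | ∀ i, 0 < c i (Fin.last (d i))} =
          ⋂ i, {c | 0 < c i (Fin.last (d i))} := by
        ext c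
        simp
      rw [e2]
      exact MeasurableSet.iInter fun i => measurableSet_lt measurable_const
        ((measurable_pi_apply (Fin.last (d i))).comp (measurable_pi_apply i))
    · exact MeasurableSet.iInter fun n => MeasurableSet.iUnion fun J => MeasurableSet.iUnion fun _ => h3 J
  show ∀ᵐ c : ((i : Fin k) → Fin (d i + 1) → ℝ), c ∈ s
  refine ae_mem_of_ae_add_linearMap_mem (LL d) (volume : Measure (Fin k → ℝ)) volume hsm fun y => ?_
  have h4 := h (fun i => pol (y i)) (fun i => (pol_deg (y i)).trans (Nat.le_succ _))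
  filter_upwards [h4] with α hα hpos
  have h5 : ∀ i, y i + LL d α i = y i + Pi.single (Fin.last (d i)) (α i) := fun i => rfl
  have h6 := hα fun i => Or.inr ⟨coeff_eq_zero_of_natDegree_lt (lt_of_le_of_lt (pol_deg (y i)) (Nat.lt_succ_self _)), by
    have h7 := hpos i
    rw [Pi.add_apply, h5] at h7
    rw [pol_coeff]
    simpa using h7⟩
  refine h6.mono fun J hJ => ?_
  have e3 : ∀ (n : ℕ) (i : Fin k), (pol ((y + LL d α) i)).eval (n : ℝ) =
      α i * (n : ℝ) ^ d i + (pol (y i)).eval (n : ℝ) := by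
    intro n i
    rw [Pi.add_apply, h5, pol_add]
  simp only [e3]
  exact hJ

end Pool.Agent.L7h53.ME
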