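import Pool.Agent.L7h2.ME.Stm2
import Pool.Agent.L7h34.ME.Win2

/-!
# Project ME (MP_3aaefc_nt): primes in the windows behind the values of an integer-valued polynomial
-/

set_option autoImplicit false

namespace Pool.Agent.L7h53.ME

open Finset Filter Polynomial Pool.Agent.L7h2.ME Pool.Agent.L7h34.ME
open Pool.Agent.H646 (P)
open Pool.Agent.H646.ChebM (P_le P_strictMono le_P)
open Pool.Agent.H342R2.SP (FF IntVal FF_cast ev_mono ev_Q)

/-- an incidence bound -/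
lemma few' (N : ℕ) (g : ℕ → ℝ) (s l β : ℝ) (hs : 0 < s) (hl : 0 ≤ l)
    (hg : ∀ n n' : ℕ, N ≤ n → n ≤ n' → s * ((n' : ℝ) - n) ≤ g n' - g n)
    (T : Finset ℕ) (hT : ∀ n ∈ T, N ≤ n ∧ g n ≤ β ∧ β ≤ g n + l) : (#T : ℝ) ≤ l / s + 1 := by
  rcases T.eq_empty_or_nonempty with hE | hne
  · rw [hE]
    simp only [Finset.card_empty, Nat.cast_zero]
    positivity
  · set n₀ := T.min' hne with hn₀
    obtain ⟨h1, h2, h3⟩ := hT n₀ (T.min'_mem hne)
    have hsub : T ⊆ Icc n₀ (n₀ + ⌊l / s⌋₊) := by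
      intro n hn
      obtain ⟨g1, g2, g3⟩ := hT n hn
      have hle : n₀ ≤ n := T.min'_le n hn
      refine Finset.mem_Icc.2 ⟨hle, ?_⟩
      have h4 := hg n₀ n h1 hle
      have h5 : (n : ℝ) - n₀ ≤ l / s := by
        rw [le_div_iff₀ hs]
        linarith
      have h7 : n - n₀ ≤ ⌊l / s⌋₊ := Nat.le_floor (by rw [Nat.cast_sub hle]; exact h5)
      omega
    have h8 := Finset.card_le_card hsub
    rw [Nat.card_Icc] at h8
    have h9 : #T ≤ ⌊l / s⌋₊ + 1 := by omega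
    have h10 : (#T : ℝ) ≤ (⌊l / s⌋₊ : ℝ) + 1 := by exact_mod_cast h9
    have h11 := Nat.floor_le (show 0 ≤ l / s by positivity)
    linarith

/-- the primes in the window and the shifts -/
lemma window (g h H : ℕ) (hg : Odd g) (hg3 : 3 ≤ g) (V : ℝ) (hV : 1 < V)
    (hy : ((g + 2 * h + 2 * H + 1 : ℕ) : ℝ) ≤ V) :
    th (g + 2 * h) (g + 2 * h + 2 * H + 1) / Real.log V ≤
      (#((Ioc h (h + H)).filter (fun u => (g + 2 * u).Prime)) : ℝ) := by
  have hlV : 0 < Real.log V := Real.log_pos hV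
  set Pr : Finset ℕ := (Ioo (g + 2 * h) (g + 2 * h + 2 * H + 1)).filter Nat.Prime with hP
  have hth : th (g + 2 * h) (g + 2 * h + 2 * H + 1) ≤ #Pr * Real.log V := by
    unfold th
    have := Finset.sum_le_card_nsmul Pr (fun p : ℕ => Real.log (p : ℝ)) (Real.log V) (fun p hp => by
      have hp' := Finset.mem_filter.1 hp
      have hp1 := Finset.mem_Ioo.1 hp'.1
      refine Real.log_le_log (by exact_mod_cast hp'.2.pos) (le_trans ?_ hy)
      exact_mod_cast hp1.2.le)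
    simpa using this
  have hcard : #Pr ≤ #((Ioc h (h + H)).filter (fun u => (g + 2 * u).Prime)) := by
    have hval : ∀ p ∈ Pr, g + 2 * ((p - g) / 2) = p := by
      intro p hp
      have hp' := Finset.mem_filter.1 hp
      have hp1 := Finset.mem_Ioo.1 hp'.1
      have hodd : Odd p := hp'.2.odd_of_ne_two (by omega)
      obtain ⟨a, ha⟩ := hodd
      obtain ⟨b, hb⟩ := hg
      omega
    apply card_le_card_of_injOn (fun p => (p - g) / 2)
    · intro p hp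
      have hp' := Finset.mem_filter.1 hp
      have hp1 := Finset.mem_Ioo.1 hp'.1
      have h1 := hval p hp
      rw [Finset.coe_filter, Set.mem_ofPred_eq]
      refine ⟨?_, ?_⟩
      · rw [mem_Ioc]
        simp only
        omega
      · rw [h1]
        exact hp'.2
    · intro p hp q hq hpq
      have h1 := hval p hp
      have h2 := hval q hq
      simp only at hpq
      omega
  rw [div_le_iff₀ hlV]
  have : (#Pr : ℝ) ≤ #((Ioc h (h + H)).filter (fun u => (g + 2 * u).Prime)) := by exact_mod_cast hcard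
  exact hth.trans (mul_le_mul_of_nonneg_right this hlV.le)

open Classical in
/-- everything except the asymptotic facts about `g` -/
theorem coreL {δ₀ c₀ : ℝ} (hδ : 0 < δ₀) (hδ2 : δ₀ < 1 / 2) (hc₀ : 0 < c₀)
    (hX : ∀ L : ℝ, 1 ≤ L → ∃ X₀ : ℕ, ∀ X : ℕ, X₀ ≤ X →
      ∃ B : Finset ℕ, (B.card : ℝ) ≤ (X : ℝ) ^ (1 / 2 - δ₀) ∧ ∀ x y : ℕ, X ≤ x → (y : ℝ) ≤ L * X → x ≤ y →
      c₀ * ((y : ℝ) - x - ((#(B ∩ Icc x y) : ℝ) + 1) * (X : ℝ) ^ (1 / 2 - δ₀)) ≤ th x y)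
    (m : ℕ) (hm1 : 1 ≤ m) (e δ' : ℝ) (hδ'1 : δ' ≤ 1 / 2) (he0 : 0 ≤ e)
    (A1 : ((m : ℝ) + δ') * (1 / 2 - δ₀) < e)
    (A2 : ((m : ℝ) + δ') * (1 - 2 * δ₀) - ((m : ℝ) - 1) < 1)
    (A3 : ((m : ℝ) + δ') * (1 - 2 * δ₀) - e < 1)
    (g : ℕ → ℕ) (hodd : ∀ n, 1 ≤ n → Odd (g n)) (c₃ L : ℝ) (hc₃ : 0 < c₃) (hL : 1 ≤ L)
    (G1 : ∃ N₁ : ℕ, ∀ n n' : ℕ, N₁ ≤ n → n ≤ n' →
      c₃ * (n : ℝ) ^ (m - 1) * ((n' : ℝ) - n) ≤ (g n' : ℝ) - g n)
    (G2 : ∃ N₁ : ℕ, ∀ N n : ℕ, N₁ ≤ N → n ∈ Ico N (2 * N) →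
      (g n : ℝ) + 2 * (N : ℝ) ^ m + 1 ≤ L * g N)
    (G3 : ∀ n, n ≤ g n) (G4 : ∃ N₁ : ℕ, ∀ N : ℕ, N₁ ≤ N → (g N : ℝ) ≤ (N : ℝ) ^ ((m : ℝ) + δ'))
    (η : ℝ) (hη : 0 < η) : ∃ N₀ : ℕ, ∀ N : ℕ, N₀ ≤ N → ∀ h H : ℕ, (N : ℝ) ^ e ≤ H → h + H ≤ N ^ m →
      (#((Ico N (2 * N)).filter (fun n => (#((Ioc h (h + H)).filter (fun u => (g n + 2 * u).Prime)) : ℝ) <
        c₀ / (m + 1) * H / Real.log N)) : ℝ) ≤ η * N := by
  obtain ⟨N₁, hN₁⟩ := G1
  obtain ⟨N₂, hN₂⟩ := G2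
  obtain ⟨N₃, hN₃⟩ := G4
  obtain ⟨X₀, hX₀⟩ := hX L hL
  obtain ⟨N₄, hN₄⟩ := const_small 2 (e - ((m : ℝ) + δ') * (1 / 2 - δ₀)) (by linarith)
  obtain ⟨N₅, hN₅⟩ := const_small (12 / (c₃ * η))
    (1 - (((m : ℝ) + δ') * (1 - 2 * δ₀) - ((m : ℝ) - 1))) (by linarith)
  obtain ⟨N₆, hN₆⟩ := const_small (4 / η) (1 - (((m : ℝ) + δ') * (1 - 2 * δ₀) - e)) (by linarith)
  obtain ⟨N₇, hN₇⟩ := const_small L (1 / 2) (by norm_num)
  refine ⟨N₁ + N₂ + N₃ + N₄ + N₅ + N₆ + N₇ + X₀ + 3, fun N hN h H hH hhH => ?_⟩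
  have hN2 : (3 : ℝ) ≤ N := by exact_mod_cast (show 3 ≤ N by omega)
  have hN0 : (0 : ℝ) < N := by linarith
  have hlogN : 0 < Real.log N := Real.log_pos (by linarith)
  have hH1 : (1 : ℝ) ≤ H := (Real.one_le_rpow (by linarith) he0).trans hH
  have hH0 : (0 : ℝ) < H := by linarith
  have hhHr : (h : ℝ) + H ≤ (N : ℝ) ^ m := by exact_mod_cast hhH
  set X : ℕ := g N with hXd
  have hXN : N ≤ X := G3 N
  have hXN' : (N : ℝ) ≤ X := by exact_mod_cast hXN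
  have hX0 : (0 : ℝ) < X := by linarith
  have hXu : (X : ℝ) ≤ (N : ℝ) ^ ((m : ℝ) + δ') := hN₃ N (by omega)
  obtain ⟨B, hBc, hB⟩ := hX₀ X (by omega)
  set w : ℝ := (X : ℝ) ^ (1 / 2 - δ₀) with hw
  have hw0 : 0 < w := by positivity
  set s : ℝ := c₃ * (N : ℝ) ^ (m - 1) with hs
  have hs0 : 0 < s := by positivity
  have hs' : s = c₃ * (N : ℝ) ^ ((m : ℝ) - 1) := by
    rw [hs]
    congr 1
    rw [← Real.rpow_natCast]
    congr 1
    push_cast [Nat.cast_sub hm1]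
    ring
  -- `w ≤ H / 2`
  have hw1 : w ≤ H / 2 := by
    have h1 : w ≤ (N : ℝ) ^ (((m : ℝ) + δ') * (1 / 2 - δ₀)) := by
      rw [hw, Real.rpow_mul hN0.le]
      exact Real.rpow_le_rpow hX0.le hXu (by linarith)
    have h2 := hN₄ N (by omega)
    rw [Real.rpow_sub hN0, le_div_iff₀ (by positivity)] at h2
    linarith
  have hw2 : w ^ 2 ≤ (N : ℝ) ^ (((m : ℝ) + δ') * (1 - 2 * δ₀)) := by
    have h1 : w ^ 2 = (X : ℝ) ^ (1 - 2 * δ₀) := by
      rw [hw, ← Real.rpow_natCast, ← Real.rpow_mul (by positivity)]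
      congr 1; push_cast; ring
    rw [h1, Real.rpow_mul hN0.le]
    exact Real.rpow_le_rpow hX0.le hXu (by linarith)
  have hws : w ^ 2 / s ≤ η / 12 * N := by
    rw [div_le_iff₀ hs0, hs']
    refine hw2.trans ?_
    have h2 := hN₅ N (by omega)
    rw [div_le_iff₀ (by positivity)] at h2
    have e1 : (N : ℝ) ^ (((m : ℝ) + δ') * (1 - 2 * δ₀)) *
        (N : ℝ) ^ (1 - (((m : ℝ) + δ') * (1 - 2 * δ₀) - ((m : ℝ) - 1))) =
        N * (N : ℝ) ^ ((m : ℝ) - 1) := by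
      rw [← Real.rpow_add hN0]
      conv_rhs => rw [← Real.rpow_one (N : ℝ)]
      rw [← Real.rpow_mul hN0.le, ← Real.rpow_add hN0]
      congr 1
      ring
    have h3 : 0 < (N : ℝ) ^ (((m : ℝ) + δ') * (1 - 2 * δ₀)) := by positivity
    have h4 := mul_le_mul_of_nonneg_left h2 h3.le
    have e2 : (N : ℝ) ^ (((m : ℝ) + δ') * (1 - 2 * δ₀)) *
        ((N : ℝ) ^ (1 - (((m : ℝ) + δ') * (1 - 2 * δ₀) - ((m : ℝ) - 1))) * (c₃ * η)) =
        c₃ * η * (N * (N : ℝ) ^ ((m : ℝ) - 1)) := by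
      rw [← e1]
      ring
    rw [e2] at h4
    linarith
  have hwH : w ^ 2 / H ≤ η / 4 * N := by
    rw [div_le_iff₀ hH0]
    refine hw2.trans ?_
    have h2 := hN₆ N (by omega)
    rw [div_le_iff₀ hη] at h2
    have e1 : (N : ℝ) ^ (((m : ℝ) + δ') * (1 - 2 * δ₀)) *
        (N : ℝ) ^ (1 - (((m : ℝ) + δ') * (1 - 2 * δ₀) - e)) = N * (N : ℝ) ^ e := by
      rw [← Real.rpow_add hN0]
      conv_rhs => rw [← Real.rpow_one (N : ℝ)]
      rw [← Real.rpow_mul hN0.le, ← Real.rpow_add hN0]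
      congr 1
      ring
    have h3 : 0 < (N : ℝ) ^ (((m : ℝ) + δ') * (1 - 2 * δ₀)) := by positivity
    have h4 := mul_le_mul_of_nonneg_left h2 h3.le
    have e2 : (N : ℝ) ^ (((m : ℝ) + δ') * (1 - 2 * δ₀)) *
        ((N : ℝ) ^ (1 - (((m : ℝ) + δ') * (1 - 2 * δ₀) - e)) * η) = η * (N * (N : ℝ) ^ e) := by
      rw [← e1]
      ring
    rw [e2] at h4
    have h5 : η * (N * (N : ℝ) ^ e) ≤ η * (N * H) := by gcongr
    linarith
  set x₁ : ℕ → ℕ := fun n => g n + 2 * h with hx₁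
  set y₁ : ℕ → ℕ := fun n => g n + 2 * h + 2 * H + 1 with hy₁
  have hgm : ∀ n n' : ℕ, N ≤ n → n ≤ n' → s * ((n' : ℝ) - n) ≤ (g n' : ℝ) - g n := by
    intro n n' h1 h2
    refine le_trans ?_ (hN₁ n n' (by omega) h2)
    have h3 : (N : ℝ) ≤ n := by exact_mod_cast h1
    have h4 : (n : ℝ) ≤ n' := by exact_mod_cast h2
    have h5 : 0 ≤ (n' : ℝ) - n := by linarith
    rw [hs]
    gcongr
  set Exc : Finset ℕ := (Ico N (2 * N)).filter (fun n => (H : ℝ) / 2 ≤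
    #(B ∩ Icc (x₁ n) (y₁ n)) * w) with hExc
  have hsub : (Ico N (2 * N)).filter (fun n =>
      (#((Ioc h (h + H)).filter (fun u => (g n + 2 * u).Prime)) : ℝ) <
        c₀ / (m + 1) * H / Real.log N) ⊆ Exc := by
    intro n hn
    obtain ⟨hn1, hn2⟩ := Finset.mem_filter.1 hn
    refine Finset.mem_filter.2 ⟨hn1, ?_⟩
    by_contra hcon
    push Not at hcon
    have hnI := Finset.mem_Ico.1 hn1
    have hgn : (X : ℝ) ≤ g n := by
      have h1 := hgm N n le_rfl hnI.1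
      have h2 : (N : ℝ) ≤ n := by exact_mod_cast hnI.1
      have h3 : 0 ≤ s * ((n : ℝ) - N) := mul_nonneg hs0.le (by linarith)
      rw [hXd]
      linarith
    have hgn' : X ≤ g n := by exact_mod_cast hgn
    have hyr : (y₁ n : ℝ) ≤ L * X := by
      have h1 := hN₂ N n (by omega) hn1
      have h2 : (y₁ n : ℝ) = g n + 2 * (h + H) + 1 := by
        rw [hy₁]
        push_cast
        ring
      rw [h2]
      linarith
    have hth := hB (x₁ n) (y₁ n) (by rw [hx₁]; simp only; omega) hyr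
      (by rw [hx₁, hy₁]; simp only; omega)
    have hdiff : (y₁ n : ℝ) - x₁ n = 2 * H + 1 := by
      rw [hx₁, hy₁]
      push_cast
      ring
    have h10 : c₀ * H ≤ th (x₁ n) (y₁ n) := by
      refine le_trans ?_ hth
      rw [hdiff]
      apply mul_le_mul_of_nonneg_left _ hc₀.le
      linarith
    have hV : ((g n + 2 * h + 2 * H + 1 : ℕ) : ℝ) ≤ (N : ℝ) ^ (m + 1) := by
      have h11 : L * X ≤ (N : ℝ) ^ ((1 : ℝ) / 2) * (N : ℝ) ^ ((m : ℝ) + 1 / 2) := by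
        have h12 := hN₇ N (by omega)
        have h13 : (X : ℝ) ≤ (N : ℝ) ^ ((m : ℝ) + 1 / 2) := hXu.trans
          (Real.rpow_le_rpow_of_exponent_le (by linarith) (by linarith))
        gcongr
      rw [← Real.rpow_add hN0] at h11
      have h14 : (1 : ℝ) / 2 + ((m : ℝ) + 1 / 2) = ((m + 1 : ℕ) : ℝ) := by
        push_cast
        ring
      rw [h14, Real.rpow_natCast] at h11
      exact hyr.trans h11
    have hwin := window (g n) h H (hodd n (by omega)) (by omega) ((N : ℝ) ^ (m + 1))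
      (one_lt_pow₀ (by linarith) (by omega)) hV
    have hlogV : Real.log ((N : ℝ) ^ (m + 1)) = (m + 1) * Real.log N := by
      rw [Real.log_pow]; push_cast; ring
    rw [hlogV] at hwin
    have h16 : c₀ / (m + 1) * H / Real.log N ≤
        th (g n + 2 * h) (g n + 2 * h + 2 * H + 1) / ((m + 1) * Real.log N) := by
      rw [le_div_iff₀ (by positivity)]
      refine le_trans (le_of_eq ?_) h10
      field_simp
    linarith
  have hcount := exc_count Exc B x₁ y₁ w ((2 * H + 1) / s + 1) ((H : ℝ) / 2) hw0.le hBc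
    (by
      intro β _
      refine few' N (fun n => (g n : ℝ)) s (2 * H + 1) ((β : ℝ) - 2 * h) hs0 (by positivity) hgm _ ?_
      intro n hn
      obtain ⟨h1, h2, h3⟩ := Finset.mem_filter.1 hn
      have hn1 := Finset.mem_Ico.1 (Finset.mem_filter.1 h1).1
      have h4 : ((g n + 2 * h : ℕ) : ℝ) ≤ β := by exact_mod_cast h2
      have h5 : (β : ℝ) ≤ ((g n + 2 * h + 2 * H + 1 : ℕ) : ℝ) := by exact_mod_cast h3
      push_cast at h4 h5
      exact ⟨hn1.1, by linarith, by linarith⟩) (by positivity)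
    (fun n hn => (Finset.mem_filter.1 hn).2)
  have hfin : (#Exc : ℝ) ≤ η * N := by
    have h1 : (#Exc : ℝ) ≤ w ^ 2 * ((2 * H + 1) / s + 1) / (H / 2) := by
      rw [le_div_iff₀ (by positivity)]
      exact hcount
    have h2 : w ^ 2 * ((2 * H + 1) / s + 1) / (H / 2) ≤ 6 * (w ^ 2 / s) + 2 * (w ^ 2 / H) := by
      have e1 : w ^ 2 * ((2 * H + 1) / s + 1) / (H / 2) =
          2 * ((2 * H + 1) / H) * (w ^ 2 / s) + 2 * (w ^ 2 / H) := by
        field_simp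
      rw [e1]
      have h3 : (2 * (H : ℝ) + 1) / H ≤ 3 := by
        rw [div_le_iff₀ hH0]
        linarith
      have h4 : 0 ≤ w ^ 2 / s := by positivity
      have h5 := mul_le_mul_of_nonneg_right h3 h4
      linarith
    linarith
  refine le_trans ?_ hfin
  exact_mod_cast Finset.card_le_card hsub

lemma expo2 {D t : ℝ} (hD : 2 ≤ D) (h0 : 0 < t) (h1 : t < 1 / 2) : 0 ≤ D - 1 - t / 2 ∧
    (D + t / 2) * (1 / 2 - t) < D - 1 - t / 2 ∧ (D + t / 2) * (1 - 2 * t) - (D - 1) < 1 ∧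
    (D + t / 2) * (1 - 2 * t) - (D - 1 - t / 2) < 1 := by
  have h2 : 0 ≤ (D - 2) * t := mul_nonneg (by linarith) h0.le
  have h3 : 0 < t * t := mul_pos h0 h0
  refine ⟨by linarith, ?_, ?_, ?_⟩
  · have e : (D + t / 2) * (1 / 2 - t) = D / 2 - ((D - 2) * t) - 2 * t + t / 4 - (t * t) / 2 := by ring
    rw [e]
    linarith
  · have e : (D + t / 2) * (1 - 2 * t) = D - 2 * ((D - 2) * t) - 4 * t + t / 2 - t * t := by ring
    rw [e]
    linarith
  · have e : (D + t / 2) * (1 - 2 * t) = D - 2 * ((D - 2) * t) - 4 * t + t / 2 - t * t := by ring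
    rw [e]
    linarith

lemma expo1 {t : ℝ} (h0 : 0 < t) (h1 : t < 1 / 2) : 0 ≤ 1 / 2 - t / 2 ∧
    (1 + t / 2) * (1 / 2 - t) < 1 / 2 - t / 2 ∧ (1 + t / 2) * (1 - 2 * t) - (1 - 1) < 1 ∧
    (1 + t / 2) * (1 - 2 * t) - (1 / 2 - t / 2) < 1 := by
  have h3 : 0 < t * t := mul_pos h0 h0
  have e1 : (1 + t / 2) * (1 / 2 - t) = 1 / 2 - t + t / 4 - (t * t) / 2 := by ring
  have e2 : (1 + t / 2) * (1 - 2 * t) = 1 - 2 * t + t / 2 - t * t := by ring
  rw [e1, e2]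
  refine ⟨by linarith, by linarith, by linarith, by linarith⟩

lemma pr_eq (n : ℕ) : P n = pr (n + 1) := rfl

/-- **S_LOW** -/
theorem s_LOW (h : S_PTS) : S_LOW := by
  obtain ⟨δ₀, c₀, hδ, hδ2, hc₀, hX⟩ := h
  refine ⟨δ₀ / 2, by linarith, by linarith, fun d => ⟨c₀ / ((max d 1 : ℕ) + 1), by positivity, ?_⟩⟩
  intro Q hQ hlc hdeg η hη
  set m := max d 1 with hm
  have hm1 : 1 ≤ m := le_max_right _ _
  have hdm : d ≤ m := le_max_left _ _
  have hm1' : (1 : ℝ) ≤ m := by exact_mod_cast hm1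
  set R : ℝ[X] := Q.map (algebraMap ℚ ℝ) with hR
  have hRdeg : R.natDegree = d := by rw [hR, natDegree_map, hdeg]
  have hRlc : 0 < R.leadingCoeff := by
    rw [hR, leadingCoeff_map]
    simpa using hlc
  have hRcoeff : 0 < R.coeff d := by rwa [leadingCoeff, hRdeg] at hRlc
  set la : ℝ := R.coeff d with hla
  obtain ⟨n₀, hn₀, -⟩ := ev_Q Q hlc
  have hFF : ∀ n : ℕ, n₀ ≤ n → (FF Q n : ℝ) = R.eval ((n : ℝ) + 1) := by
    intro n hn
    have h1 := FF_cast hQ (fun n hn => (hn₀ n hn).1) hn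
    have h2 : ((FF Q n : ℚ) : ℝ) = ((Q.eval ((n : ℚ) + 1) : ℚ) : ℝ) := by rw [h1]
    rw [Rat.cast_natCast] at h2
    rw [h2, hR]
    have h3 := eval_natCast_map (algebraMap ℚ ℝ) Q (n + 1)
    push_cast at h3
    rw [h3]
    rfl
  obtain ⟨xa, hxa, hbd⟩ := poly_bds R d hRdeg.le hRcoeff
  obtain ⟨xm, hmono⟩ := ev_mono R hRlc
  obtain ⟨CP, hCP, hPu⟩ := P_le
  set g : ℕ → ℕ := fun n => P n + 2 * FF Q n with hg
  have hgr : ∀ n : ℕ, n₀ ≤ n → (g n : ℝ) = P n + 2 * R.eval ((n : ℝ) + 1) := by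
    intro n hn
    rw [← hFF n hn, hg]
    push_cast
    ring
  have hPm : ∀ n n' : ℕ, n ≤ n' → (n' : ℝ) - n ≤ (P n' : ℝ) - P n := by
    intro n n' hnn
    have h1 := P_strictMono.add_le_nat (n' - n) n
    have h2 : n' - n + n = n' := Nat.sub_add_cancel hnn
    rw [h2] at h1
    have h3 : ((n' - n : ℕ) : ℝ) + P n ≤ P n' := by exact_mod_cast h1
    rw [Nat.cast_sub hnn] at h3
    linarith
  have hG1 : ∃ c₃ : ℝ, 0 < c₃ ∧ ∃ N₁ : ℕ, ∀ n n' : ℕ, N₁ ≤ n → n ≤ n' →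
      c₃ * (n : ℝ) ^ (m - 1) * ((n' : ℝ) - n) ≤ (g n' : ℝ) - g n := by
    rcases Nat.lt_or_ge 1 d with hd | hd
    · have hmd : m = d := by omega
      obtain ⟨xd, cd, hxd, hcd, hdiff⟩ := poly_diff R d (by omega) hRdeg.le hRcoeff
      refine ⟨cd, hcd, ⌈xd⌉₊ + n₀, fun n n' hn hn' => ?_⟩
      have h0 : ⌈xd⌉₊ ≤ n := by omega
      have h1 : xd ≤ n := (Nat.le_ceil xd).trans (by exact_mod_cast h0)
      have h2 : (n : ℝ) ≤ n' := by exact_mod_cast hn'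
      have h3 := hdiff ((n : ℝ) + 1) ((n' : ℝ) + 1) (by linarith) (by linarith)
      have h4 := hPm n n' hn'
      rw [hgr n (by omega), hgr n' (by omega), hmd]
      have h5 : (n : ℝ) ^ (d - 1) ≤ ((n : ℝ) + 1) ^ (d - 1) :=
        pow_le_pow_left₀ (Nat.cast_nonneg n) (by linarith) _
      have h6 : 0 ≤ (n' : ℝ) - n := by linarith
      have h7 : cd * (n : ℝ) ^ (d - 1) * ((n' : ℝ) - n) ≤
          cd * ((n : ℝ) + 1) ^ (d - 1) * ((n' : ℝ) + 1 - ((n : ℝ) + 1)) := by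
        rw [add_sub_add_right_eq_sub]
        gcongr
      have h8 : 0 ≤ cd * (n : ℝ) ^ (d - 1) * ((n' : ℝ) - n) := by positivity
      linarith
    · have hmd : m - 1 = 0 := by omega
      refine ⟨1, one_pos, ⌈xm⌉₊ + n₀, fun n n' hn hn' => ?_⟩
      rw [hmd, pow_zero, one_mul, one_mul, hgr n (by omega), hgr n' (by omega)]
      have h0 : ⌈xm⌉₊ ≤ n := by omega
      have h1 : xm ≤ n := (Nat.le_ceil xm).trans (by exact_mod_cast h0)
      have h2 : (n : ℝ) ≤ n' := by exact_mod_cast hn'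
      have h3 : R.eval ((n : ℝ) + 1) ≤ R.eval ((n' : ℝ) + 1) :=
        hmono (Set.mem_Ici.2 (by linarith)) (Set.mem_Ici.2 (by linarith)) (by linarith)
      have h4 := hPm n n' hn'
      linarith
  obtain ⟨c₃, hc₃, hG1'⟩ := hG1
  -- lower bounds for `g N`
  have hlow : ∀ N : ℕ, n₀ ≤ N → xa ≤ N → 2 ≤ N →
      la / 2 * (N : ℝ) ^ d ≤ R.eval ((N : ℝ) + 1) ∧ 0 ≤ R.eval ((N : ℝ) + 1) ∧
        (N : ℝ) * Real.log N ≤ 5 * P N ∧ (N : ℝ) ≤ P N := by
    intro N h1 h2 h3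
    have h4 := (hbd ((N : ℝ) + 1) (by linarith)).1
    have h5 : (N : ℝ) ^ d ≤ ((N : ℝ) + 1) ^ d :=
      pow_le_pow_left₀ (Nat.cast_nonneg N) (by linarith) _
    have h6 : la / 2 * (N : ℝ) ^ d ≤ la / 2 * ((N : ℝ) + 1) ^ d :=
      mul_le_mul_of_nonneg_left h5 (by linarith)
    have h7 : 0 ≤ la / 2 * (N : ℝ) ^ d := by positivity
    have h8 := pr_lower (show 2 ≤ N + 1 by omega)
    rw [← pr_eq] at h8
    have hN0 : (2 : ℝ) ≤ N := by exact_mod_cast h3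
    have h9 : (N : ℝ) * Real.log N ≤ ((N + 1 : ℕ) : ℝ) * Real.log ((N + 1 : ℕ) : ℝ) := by
      push_cast
      have : Real.log N ≤ Real.log ((N : ℝ) + 1) := Real.log_le_log (by linarith) (by linarith)
      have h0 : 0 ≤ Real.log N := Real.log_nonneg (by linarith)
      nlinarith
    have h10 : (N : ℝ) ≤ P N := by
      have := le_P N
      exact_mod_cast (show N ≤ P N by omega)
    exact ⟨h6.trans h4, by linarith, h9.trans h8, h10⟩
  set L : ℝ := 20 * CP + 4 * 3 ^ d + 2 * (1 + 1 / la) + 1 with hL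
  have h3d : (0 : ℝ) < 3 ^ d := by positivity
  have hila : 0 < 1 / la := by positivity
  have hL1 : 1 ≤ L := by
    rw [hL]
    linarith
  have hG2 : ∃ N₁ : ℕ, ∀ N n : ℕ, N₁ ≤ N → n ∈ Ico N (2 * N) →
      (g n : ℝ) + 2 * (N : ℝ) ^ m + 1 ≤ L * g N := by
    refine ⟨⌈xa⌉₊ + n₀ + 4, fun N n hN hn => ?_⟩
    have hnI := Finset.mem_Ico.1 hn
    have hN4 : (4 : ℝ) ≤ N := by exact_mod_cast (show 4 ≤ N by omega)
    have hNn : (N : ℝ) ≤ n := by exact_mod_cast hnI.1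
    have hn2 : (n : ℝ) ≤ 2 * N := by exact_mod_cast hnI.2.le
    have hxaN : xa ≤ N := (Nat.le_ceil xa).trans (by exact_mod_cast (show ⌈xa⌉₊ ≤ N by omega))
    obtain ⟨l1, l2, l3, l4⟩ := hlow N (by omega) hxaN (by omega)
    have hlN : 0 < Real.log N := Real.log_pos (by linarith)
    have h5 : Real.log n ≤ 2 * Real.log N := by
      have : Real.log n ≤ Real.log ((N : ℝ) ^ 2) := Real.log_le_log (by linarith) (by nlinarith)
      rw [Real.log_pow] at this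
      exact_mod_cast this
    have h6 : (P n : ℝ) ≤ 20 * CP * P N := by
      calc (P n : ℝ) ≤ CP * (n * Real.log n) := hPu n (by omega)
        _ ≤ CP * ((2 * N) * (2 * Real.log N)) := by
            have : 0 ≤ Real.log n := Real.log_nonneg (by linarith)
            gcongr
        _ = 4 * CP * (N * Real.log N) := by ring
        _ ≤ 4 * CP * (5 * P N) := by gcongr
        _ = 20 * CP * P N := by ring
    have h7 : R.eval ((n : ℝ) + 1) ≤ 4 * 3 ^ d * R.eval ((N : ℝ) + 1) := by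
      calc R.eval ((n : ℝ) + 1) ≤ 2 * la * ((n : ℝ) + 1) ^ d := (hbd ((n : ℝ) + 1) (by linarith)).2
        _ ≤ 2 * la * (3 * N) ^ d := by
            gcongr
            linarith
        _ = 4 * 3 ^ d * (la / 2 * (N : ℝ) ^ d) := by rw [mul_pow]; ring
        _ ≤ 4 * 3 ^ d * R.eval ((N : ℝ) + 1) := by gcongr
    have hgN := hgr N (by omega)
    have hgN0 : (P N : ℝ) ≤ g N := by rw [hgN]; linarith
    have hgN1 : 2 * R.eval ((N : ℝ) + 1) ≤ g N := by rw [hgN]; linarith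
    have hgpos : (0 : ℝ) ≤ g N := Nat.cast_nonneg _
    have h8 : (N : ℝ) ^ m ≤ (1 + 1 / la) * g N := by
      rcases Nat.eq_zero_or_pos d with hd | hd
      · have : m = 1 := by omega
        rw [this, pow_one]
        have : 0 ≤ 1 / la * g N := by positivity
        linarith
      · have : m = d := by omega
        rw [this]
        have h9 : (N : ℝ) ^ d ≤ 1 / la * g N := by
          rw [div_mul_eq_mul_div, le_div_iff₀ hRcoeff, one_mul]
          linarith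
        linarith
    rw [hgr n (by omega), hL]
    have e1 : 20 * CP * P N ≤ 20 * CP * (g N : ℝ) := by gcongr
    have e2 : 2 * (4 * 3 ^ d * R.eval ((N : ℝ) + 1)) ≤ 4 * 3 ^ d * (g N : ℝ) := by
      have := mul_le_mul_of_nonneg_left hgN1 (show (0 : ℝ) ≤ 4 * 3 ^ d by positivity)
      linarith
    have e3 : (1 : ℝ) ≤ g N := by linarith
    nlinarith
  have hG4 : ∃ N₁ : ℕ, ∀ N : ℕ, N₁ ≤ N → (g N : ℝ) ≤ (N : ℝ) ^ ((m : ℝ) + δ₀ / 2) := by
    obtain ⟨N₁, hN₁⟩ := log_small (2 * CP) (δ₀ / 2) (by linarith)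
    obtain ⟨N₂, hN₂⟩ := const_small (8 * la * 2 ^ d) (δ₀ / 2) (by linarith)
    refine ⟨⌈xa⌉₊ + n₀ + N₁ + N₂ + 2, fun N hN => ?_⟩
    have hN2 : (2 : ℝ) ≤ N := by exact_mod_cast (show 2 ≤ N by omega)
    have hN0 : (0 : ℝ) < N := by linarith
    have hxaN : xa ≤ N := (Nat.le_ceil xa).trans (by exact_mod_cast (show ⌈xa⌉₊ ≤ N by omega))
    have h1 := (hbd ((N : ℝ) + 1) (by linarith)).2
    have h2 := hPu N (by omega)
    have h3 := hN₁ N (by omega)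
    have h4 := hN₂ N (by omega)
    have h5 : (N : ℝ) ≤ (N : ℝ) ^ m := le_self_pow₀ (by linarith) (by omega)
    have h5' : (N : ℝ) ^ d ≤ (N : ℝ) ^ m := pow_le_pow_right₀ (by linarith) hdm
    rw [hgr N (by omega), Real.rpow_add hN0, Real.rpow_natCast]
    have h6 : (P N : ℝ) ≤ (N : ℝ) ^ m * (N : ℝ) ^ (δ₀ / 2) / 2 := by
      calc (P N : ℝ) ≤ CP * (N * Real.log N) := h2
        _ = N * (2 * CP * Real.log N) / 2 := by ring
        _ ≤ (N : ℝ) ^ m * (N : ℝ) ^ (δ₀ / 2) / 2 := by gcongr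
    have h7 : 2 * R.eval ((N : ℝ) + 1) ≤ (N : ℝ) ^ m * (N : ℝ) ^ (δ₀ / 2) / 2 := by
      calc 2 * R.eval ((N : ℝ) + 1) ≤ 2 * (2 * la * ((N : ℝ) + 1) ^ d) := by linarith
        _ ≤ 2 * (2 * la * (2 * (N : ℝ)) ^ d) := by
            gcongr
            linarith
        _ = (N : ℝ) ^ d * (8 * la * 2 ^ d) / 2 := by rw [mul_pow]; ring
        _ ≤ (N : ℝ) ^ m * (N : ℝ) ^ (δ₀ / 2) / 2 := by gcongr
    linarith
  have hex : ex (δ₀ / 2) d = if d ≤ 1 then 1 / 2 - δ₀ / 2 else (d : ℝ) - 1 - δ₀ / 2 := rfl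
  have hA : 0 ≤ ex (δ₀ / 2) d ∧ ((m : ℝ) + δ₀ / 2) * (1 / 2 - δ₀) < ex (δ₀ / 2) d ∧
      ((m : ℝ) + δ₀ / 2) * (1 - 2 * δ₀) - ((m : ℝ) - 1) < 1 ∧
      ((m : ℝ) + δ₀ / 2) * (1 - 2 * δ₀) - ex (δ₀ / 2) d < 1 := by
    rw [hex]
    rcases Nat.lt_or_ge 1 d with hd | hd
    · have hmd : m = d := by omega
      have hd2 : (2 : ℝ) ≤ d := by exact_mod_cast hd
      rw [if_neg (by omega), hmd]
      exact expo2 hd2 hδ hδ2
    · have hmd : m = 1 := by omega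
      rw [if_pos hd, hmd, Nat.cast_one]
      exact expo1 hδ hδ2
  have hodd : ∀ n, 1 ≤ n → Odd (g n) := by
    intro n hn
    have h1 : (P n).Prime := Nat.prime_nth_prime _
    have h2 := le_P n
    obtain ⟨b, hb⟩ := h1.odd_of_ne_two (by omega)
    exact ⟨b + FF Q n, by rw [hg]; simp only; omega⟩
  have hG3 : ∀ n, n ≤ g n := by
    intro n
    have h2 := le_P n
    rw [hg]
    simp only
    omega
  exact coreL hδ hδ2 hc₀ hX m hm1 (ex (δ₀ / 2) d) (δ₀ / 2) (by linarith) hA.1 hA.2.1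
    hA.2.2.1 hA.2.2.2 g hodd c₃ L hc₃ hL1 hG1' hG2 hG3 hG4 η hη

end Pool.Agent.L7h53.ME
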