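import Pool.Agent.L7h2.ME.Stm

/-!
# Project ME: the zero-one law
-/

set_option autoImplicit false

namespace Pool.Agent.L7h53.ME

open MeasureTheory Filter Metric Topology
open Pool.Agent.L7h2.ME
open scoped ENNReal

theorem key {k : ℕ} {E : ℕ → Set (Fin k → ℝ)} (hE : ∀ N, MeasurableSet (E N)) {a b : Fin k → ℝ}
    {c : ℝ} (hab : ∀ i, a i < b i)
    (h : ∃ N₀ : ℕ, ∀ N : ℕ, N₀ ≤ N →
      c * ∏ i, (b i - a i) ≤ volume.real {α | (∀ i, α i ∈ Set.Ioc (a i) (b i)) ∧ α ∈ E N}) :
    c * ∏ i, (b i - a i) ≤ volume.real {α | (∀ i, α i ∈ Set.Ioc (a i) (b i)) ∧ ∃ᶠ N in atTop, α ∈ E N} := by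
  obtain ⟨N₀, h⟩ := h
  set B : Set (Fin k → ℝ) := {α | ∀ i, α i ∈ Set.Ioc (a i) (b i)} with hB
  have hBpi : B = Set.pi Set.univ fun i => Set.Ioc (a i) (b i) := by
    ext α
    simp [hB, Set.mem_pi]
  have hBm : MeasurableSet B := by
    rw [hBpi]
    exact MeasurableSet.univ_pi fun i => measurableSet_Ioc
  have hBfin : volume B ≠ ∞ := by
    rw [hBpi, Real.volume_pi_Ioc]
    exact ENNReal.prod_ne_top fun i _ => ENNReal.ofReal_ne_top
  set G : ℕ → Set (Fin k → ℝ) := fun n => B ∩ ⋃ N ≥ n, E N with hG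
  have hGm : ∀ n, MeasurableSet (G n) := fun n =>
    hBm.inter (MeasurableSet.iUnion fun N => MeasurableSet.iUnion fun _ => hE N)
  have hanti : Antitone G := by
    intro n m hnm α hα
    obtain ⟨h1, h2⟩ := hα
    refine ⟨h1, ?_⟩
    simp only [Set.mem_iUnion] at h2 ⊢
    obtain ⟨N, hN, h3⟩ := h2
    exact ⟨N, le_trans hnm hN, h3⟩
  have hGfin : ∀ n, volume (G n) ≠ ∞ := fun n => ((measure_mono Set.inter_subset_left).trans_lt
    (lt_top_iff_ne_top.2 hBfin)).ne
  have hlim := tendsto_measure_iInter_atTop (μ := volume) (fun n => (hGm n).nullMeasurableSet) hanti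
    ⟨0, hGfin 0⟩
  have hI : (⋂ n, G n) = {α | (∀ i, α i ∈ Set.Ioc (a i) (b i)) ∧ ∃ᶠ N in atTop, α ∈ E N} := by
    ext α
    simp only [Set.mem_iInter, hG, Set.mem_inter_iff, Set.mem_iUnion, Set.mem_setOf_eq, frequently_atTop]
    constructor
    · intro h1
      refine ⟨(h1 0).1, fun n => ?_⟩
      obtain ⟨N, hN, h2⟩ := (h1 n).2
      exact ⟨N, hN, h2⟩
    · rintro ⟨h1, h2⟩ n
      obtain ⟨N, hN, h3⟩ := h2 n
      exact ⟨h1, N, hN, h3⟩
  rw [hI] at hlim
  have hfin : volume {α | (∀ i, α i ∈ Set.Ioc (a i) (b i)) ∧ ∃ᶠ N in atTop, α ∈ E N} ≠ ∞ := by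
    rw [← hI]
    exact ((measure_mono (Set.iInter_subset G 0)).trans_lt (lt_top_iff_ne_top.2 (hGfin 0))).ne
  have hlim' := (ENNReal.tendsto_toReal hfin).comp hlim
  refine ge_of_tendsto hlim' ?_
  refine Eventually.of_forall fun n => ?_
  refine (h (max n N₀) (le_max_right _ _)).trans ?_
  refine ENNReal.toReal_mono (hGfin n) (measure_mono ?_)
  rintro α ⟨h1, h2⟩
  refine ⟨h1, ?_⟩
  simp only [Set.mem_iUnion]
  exact ⟨max n N₀, le_max_left _ _, h2⟩

theorem s_ZO : S_ZO := by
  intro k E hE U hU c hc hbox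
  set F : Set (Fin k → ℝ) := {α | ∃ᶠ N in atTop, α ∈ E N} with hF
  have hFm : MeasurableSet F := by
    have h1 : F = ⋂ n : ℕ, ⋃ N ≥ n, E N := by
      ext α
      simp only [hF, Set.mem_setOf_eq, frequently_atTop, Set.mem_iInter, Set.mem_iUnion]
      constructor
      · intro h n
        obtain ⟨N, hN, h2⟩ := h n
        exact ⟨N, hN, h2⟩
      · intro h n
        obtain ⟨N, hN, h2⟩ := h n
        exact ⟨N, hN, h2⟩
    rw [h1]
    exact MeasurableSet.iInter fun n => MeasurableSet.iUnion fun N => MeasurableSet.iUnion fun _ => hE N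
  set S : Set (Fin k → ℝ) := U \ F with hS
  have hSm : MeasurableSet S := hU.measurableSet.diff hFm
  have hdens := Besicovitch.ae_tendsto_measure_inter_div (volume : Measure (Fin k → ℝ)) S
  rw [ae_restrict_iff' hSm] at hdens
  filter_upwards [hdens] with x hx hxU
  by_contra hxF
  have h1 := hx ⟨hxU, hxF⟩
  obtain ⟨r₀, hr₀, hball⟩ := Metric.nhds_basis_closedBall.mem_iff.1 (hU.mem_nhds hxU)
  have hkey : ∀ r : ℝ, 0 < r → r ≤ r₀ →
      volume.real (S ∩ closedBall x r) ≤ (1 - c) * (2 * r) ^ k ∧ 0 ≤ 1 - c := by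
    intro r hr hr0
    have hsub : Set.Icc (fun i => x i - r) (fun i => x i + r) ⊆ closedBall x r := by
      intro y hy
      rw [mem_closedBall, dist_pi_le_iff hr.le]
      intro i
      rw [Real.dist_eq, abs_le]
      have e1 := hy.1 i
      have e2 := hy.2 i
      dsimp only at e1 e2
      constructor <;> linarith
    have hsub2 : closedBall x r ⊆ U := (closedBall_subset_closedBall hr0).trans hball
    have h2 := key hE (a := fun i => x i - r) (b := fun i => x i + r) (c := c)
      (fun i => by linarith) (hbox _ _ (fun i => by linarith) (hsub.trans hsub2))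
    have h3 : ∏ i : Fin k, (x i + r - (x i - r)) = (2 * r) ^ k := by
      have : ∀ i : Fin k, x i + r - (x i - r) = 2 * r := fun i => by ring
      simp [this]
    rw [h3] at h2
    have hvol : volume.real (closedBall x r) = (2 * r) ^ k := by
      rw [Measure.real, Real.volume_pi_closedBall _ hr.le, ENNReal.toReal_ofReal (by positivity),
        Fintype.card_fin]
    set T : Set (Fin k → ℝ) :=
      {α | (∀ i, α i ∈ Set.Ioc (x i - r) (x i + r)) ∧ ∃ᶠ N in atTop, α ∈ E N} with hT
    have hTsub : T ⊆ closedBall x r \ S := by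
      rintro α ⟨h4, h5⟩
      refine ⟨hsub ⟨fun i => (h4 i).1.le, fun i => (h4 i).2⟩, fun h6 => h6.2 h5⟩
    have hfin : volume (closedBall x r) ≠ ∞ := by
      rw [Real.volume_pi_closedBall _ hr.le]
      exact ENNReal.ofReal_ne_top
    have h4 : volume.real (S ∩ closedBall x r) + volume.real (closedBall x r \ S) =
        volume.real (closedBall x r) := by
      rw [Set.inter_comm]
      exact measureReal_inter_add_diff hSm hfin
    have h5 : volume.real T ≤ volume.real (closedBall x r \ S) :=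
      measureReal_mono hTsub ((measure_mono Set.diff_subset).trans_lt (lt_top_iff_ne_top.2 hfin)).ne
    have h6 : 0 < (2 * r) ^ k := by positivity
    have h7 : 0 ≤ volume.real (S ∩ closedBall x r) := measureReal_nonneg
    constructor
    · linarith
    · by_contra hneg
      push Not at hneg
      nlinarith
  have h2 : ∀ᶠ r in 𝓝[>] (0 : ℝ), volume (S ∩ closedBall x r) / volume (closedBall x r) ≤
      ENNReal.ofReal (1 - c) := by
    filter_upwards [Ioc_mem_nhdsGT hr₀] with r hr
    obtain ⟨h3, h4⟩ := hkey r hr.1 hr.2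
    have hfin : volume (closedBall x r) ≠ ∞ := by
      rw [Real.volume_pi_closedBall _ hr.1.le]
      exact ENNReal.ofReal_ne_top
    have hfin2 : volume (S ∩ closedBall x r) ≠ ∞ :=
      ((measure_mono Set.inter_subset_right).trans_lt (lt_top_iff_ne_top.2 hfin)).ne
    have h5 : volume (closedBall x r) = ENNReal.ofReal ((2 * r) ^ k) := by
      rw [Real.volume_pi_closedBall _ hr.1.le, Fintype.card_fin]
    rw [h5]
    have hpos : 0 < (2 * r) ^ k := pow_pos (by linarith [hr.1]) k
    refine ENNReal.div_le_of_le_mul ?_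
    rw [← ENNReal.ofReal_mul h4, ← ENNReal.ofReal_toReal hfin2]
    exact ENNReal.ofReal_le_ofReal h3
  have h3 : (1 : ℝ≥0∞) ≤ ENNReal.ofReal (1 - c) := le_of_tendsto h1 h2
  rw [← ENNReal.ofReal_one, ENNReal.ofReal_le_ofReal_iff'] at h3
  rcases h3 with h3 | h3
  · linarith
  · linarith

end Pool.Agent.L7h53.ME
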